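import Pool.Agent.Run7.h59.KK.Asymp

/-!
The spectral threshold of the Kikuchi matrix for tensor PCA tends to zero for every even `r ≥ 4`.

Proof idea: the moments `E tr M(0)^(2k)` are computed by the Wick recursion (Hermite polynomials) as
sums over sequences of openings and closings of edge labels. The state of such a sequence is the
multiset `O` of open labels (the current vertex `I` is the symmetric difference of the starting
vertex `I₀` and of the open labels). The function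
`φ(O) = t^|O| B^(|O| r / 2 + ℓ - |V(O)|)`, `V(O)` the union of `I₀` and of the open labels, is a
supersolution of the recursion: an opening whose new elements include `j` old ones costs `B^j` but
has relative frequency `(log n)^C n^(-j)`, and a closing which does not lower the exponent of `B`
removes a label whose `r/2` elements in `I` are private, so that there are at most `2ℓ/r` of them.
-/

set_option autoImplicit false

open MeasureTheory ProbabilityTheory Filter Topology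

namespace Pool.Agent.Results.MP_d47e08_pr.VanishingThreshold

/-- The Kikuchi matrix `M(lam)` with noise `Z`: rows and columns are labelled by the `ℓ`-subsets of
`[n]`, the entry at `(I, J)` is `lam + Z_{I Δ J}` if `|I Δ J| = r`, and `0` otherwise. -/
noncomputable def kikuchi (r ℓ n : ℕ) (lam : ℝ) (Z : Finset (Fin n) → ℝ) :
    Matrix {K : Finset (Fin n) // K.card = ℓ} {K : Finset (Fin n) // K.card = ℓ} ℝ :=
  Matrix.of fun I J =>
    if (symmDiff I.1 J.1).card = r then lam + Z (symmDiff I.1 J.1) else 0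

/-- The largest eigenvalue of a real symmetric matrix: the supremum of the quadratic form on the
unit sphere. -/
noncomputable def lamMax {V : Type} [Fintype V] (A : Matrix V V ℝ) : ℝ :=
  sSup {t : ℝ | ∃ v : V → ℝ, dotProduct v v = 1 ∧ t = dotProduct v (Matrix.mulVec A v)}

/-- `E λ_max M(lam)`, the noise `Z` being i.i.d. standard Gaussian. -/
noncomputable def meanTop (r ℓ n : ℕ) (lam : ℝ) : ℝ :=
  ∫ Z : Finset (Fin n) → ℝ, lamMax (kikuchi r ℓ n lam Z) ∂(Measure.pi fun _ => gaussianReal 0 1)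

/-- `ρ_{r,ℓ}(μ) = liminf_n E λ_max M(μ n^(-r/4)) / E λ_max M(0)`. -/
noncomputable def rho (r ℓ : ℕ) (μ : ℝ) : EReal :=
  liminf (fun n : ℕ => ((meanTop r ℓ n (μ * (n : ℝ) ^ (-(r : ℝ) / 4)) / meanTop r ℓ n 0 : ℝ) :
    EReal)) atTop

/-- The rescaled spectral threshold `inf {μ ≥ 0 : ρ_{r,ℓ}(μ) > 1}` (`+∞` if the set is empty). -/
noncomputable def threshold (r ℓ : ℕ) : EReal :=
  sInf {x : EReal | ∃ μ : ℝ, 0 ≤ μ ∧ 1 < rho r ℓ μ ∧ x = (μ : EReal)}

lemma meanTop_eq (r ℓ n : ℕ) (lam : ℝ) :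
    meanTop r ℓ n lam = Pool.Agent.Run7.h59.KK.El r ℓ n lam := rfl

/-- The upper bound for the threshold. -/
noncomputable def bound (r ℓ : ℕ) : ℝ :=
  2 * √(((r / 2 - 1).factorial : ℝ) * ℓ / (ℓ.choose (r / 2) : ℝ))

lemma key (h ℓ : ℕ) (hh : 1 ≤ h) (hl : h ≤ ℓ) (μ : ℝ) (hμ : bound (2 * h) ℓ < μ) :
    Pool.Agent.Run7.h59.KK.lev h ℓ < μ * ((ℓ.choose h : ℝ) / (h.factorial : ℝ)) := by
  unfold bound at hμ
  rw [Nat.mul_div_cancel_left h (by norm_num)] at hμ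
  unfold Pool.Agent.Run7.h59.KK.lev
  have hC : (0 : ℝ) < ℓ.choose h := by exact_mod_cast Nat.choose_pos hl
  have hfac : (0 : ℝ) < (h.factorial : ℝ) := by positivity
  have hh0 : (0 : ℝ) < h := by exact_mod_cast hh
  have hf : (h.factorial : ℝ) = h * ((h - 1).factorial : ℝ) := by
    have := Nat.mul_factorial_pred (show h ≠ 0 by omega)
    exact_mod_cast this.symm
  obtain ⟨a, ha⟩ : ∃ a, a = (ℓ.choose h : ℝ) / (h.factorial : ℝ) := ⟨_, rfl⟩
  have ha0 : 0 < a := by rw [ha]; positivity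
  have e1 : (ℓ : ℝ) / h * a = (((h - 1).factorial : ℝ) * ℓ / (ℓ.choose h : ℝ)) * (a * a) := by
    have hf1 : (0 : ℝ) < ((h - 1).factorial : ℝ) := by positivity
    rw [ha, hf]
    field_simp
  rw [← ha, e1, Real.sqrt_mul (by positivity), Real.sqrt_mul_self ha0.le, ← mul_assoc]
  exact mul_lt_mul_of_pos_right hμ ha0

lemma bound_tendsto (r : ℕ) (hr : 4 ≤ r) : Tendsto (bound r) atTop (𝓝 0) := by
  obtain ⟨h, hh⟩ : ∃ h, h = r / 2 := ⟨_, rfl⟩
  have hh2 : 2 ≤ h := by omega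
  have e1 : Tendsto (fun ℓ : ℕ => ((h - 1).factorial : ℝ) * ℓ / (ℓ.choose h : ℝ)) atTop (𝓝 0) := by
    have e2 : Tendsto (fun ℓ : ℕ => (4 * ((h - 1).factorial : ℝ) * (h.factorial : ℝ)) / (ℓ : ℝ))
        atTop (𝓝 0) := tendsto_const_nhds.div_atTop tendsto_natCast_atTop_atTop
    refine squeeze_zero' (Eventually.of_forall fun ℓ => by positivity) ?_ e2
    filter_upwards [eventually_ge_atTop (2 * h)] with ℓ hℓ
    have hl0 : (0 : ℝ) < ℓ := by
      have : 0 < ℓ := by omega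
      exact_mod_cast this
    have hC : (0 : ℝ) < ℓ.choose h := by exact_mod_cast Nat.choose_pos (show h ≤ ℓ by omega)
    rw [div_le_div_iff₀ hC hl0]
    have h1 := Nat.pow_le_choose (α := ℝ) h ℓ
    rw [div_le_iff₀ (by positivity)] at h1
    have h2 : ((ℓ : ℝ) / 2) ^ 2 ≤ (((ℓ + 1 - h : ℕ) : ℝ)) ^ h := by
      have h3 : (ℓ : ℝ) / 2 ≤ ((ℓ + 1 - h : ℕ) : ℝ) := by
        have : ℓ ≤ 2 * (ℓ + 1 - h) := by omega
        have h4 : (ℓ : ℝ) ≤ 2 * ((ℓ + 1 - h : ℕ) : ℝ) := by exact_mod_cast this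
        linarith
      have h5 : (1 : ℝ) ≤ (ℓ : ℝ) / 2 := by
        have : 2 ≤ ℓ := by omega
        have : (2 : ℝ) ≤ ℓ := by exact_mod_cast this
        linarith
      calc ((ℓ : ℝ) / 2) ^ 2 ≤ ((ℓ : ℝ) / 2) ^ h := pow_le_pow_right₀ h5 hh2
        _ ≤ _ := pow_le_pow_left₀ (by positivity) h3 h
    have h6 : (ℓ : ℝ) ^ 2 ≤ 4 * ((ℓ.choose h : ℝ) * (h.factorial : ℝ)) := by
      have := h2.trans h1
      linarith
    have h7 : (0 : ℝ) ≤ ((h - 1).factorial : ℝ) := by positivity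
    have h8 := mul_le_mul_of_nonneg_left h6 h7
    linarith
  have e3 := (Real.continuous_sqrt.tendsto 0).comp e1
  rw [Real.sqrt_zero] at e3
  have e4 := e3.const_mul 2
  rw [mul_zero] at e4
  refine e4.congr fun ℓ => ?_
  unfold bound
  rw [← hh]
  rfl

lemma bound_le (h ℓ : ℕ) (hh : 1 ≤ h) (hl : 2 * h ≤ ℓ) :
    bound (2 * h) ℓ ≤ 2 * √(2 ^ h * (h.factorial : ℝ) * ((h - 1).factorial : ℝ)) *
      (ℓ : ℝ) ^ (-(((2 * h : ℕ) : ℝ) - 2) / 4) := by
  unfold bound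
  rw [Nat.mul_div_cancel_left h (by norm_num)]
  have hl0 : (0 : ℝ) < ℓ := by
    have : 0 < ℓ := by omega
    exact_mod_cast this
  have hC : (0 : ℝ) < ℓ.choose h := by exact_mod_cast Nat.choose_pos (show h ≤ ℓ by omega)
  have h1 := Nat.pow_le_choose (α := ℝ) h ℓ
  rw [div_le_iff₀ (by positivity)] at h1
  have h2 : ((ℓ : ℝ) / 2) ^ h ≤ (((ℓ + 1 - h : ℕ) : ℝ)) ^ h := by
    apply pow_le_pow_left₀ (by positivity)
    have : ℓ ≤ 2 * (ℓ + 1 - h) := by omega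
    have h4 : (ℓ : ℝ) ≤ 2 * ((ℓ + 1 - h : ℕ) : ℝ) := by exact_mod_cast this
    linarith
  have h3 : (ℓ : ℝ) ^ h ≤ 2 ^ h * ((ℓ.choose h : ℝ) * (h.factorial : ℝ)) := by
    have h5 := h2.trans h1
    rw [div_pow, div_le_iff₀ (by positivity)] at h5
    linarith
  have h4 : ((h - 1).factorial : ℝ) * ℓ / (ℓ.choose h : ℝ) ≤
      2 ^ h * (h.factorial : ℝ) * ((h - 1).factorial : ℝ) * (ℓ : ℝ) ^ (-((h : ℝ) - 1)) := by
    have e1 : (ℓ : ℝ) ^ (-((h : ℝ) - 1)) = ℓ / (ℓ : ℝ) ^ h := by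
      rw [neg_sub, Real.rpow_sub hl0, Real.rpow_one, Real.rpow_natCast]
    rw [e1, div_le_iff₀ hC]
    have h7 : (0 : ℝ) ≤ ((h - 1).factorial : ℝ) * ℓ := by positivity
    have h8 := mul_le_mul_of_nonneg_left h3 h7
    have h9 : (0 : ℝ) < (ℓ : ℝ) ^ h := by positivity
    calc ((h - 1).factorial : ℝ) * ℓ = ((h - 1).factorial : ℝ) * ℓ * (ℓ : ℝ) ^ h / (ℓ : ℝ) ^ h := by
          field_simp
      _ ≤ ((h - 1).factorial : ℝ) * ℓ * (2 ^ h * ((ℓ.choose h : ℝ) * (h.factorial : ℝ))) /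
          (ℓ : ℝ) ^ h := div_le_div_of_nonneg_right h8 h9.le
      _ = _ := by ring
  have h5 := Real.sqrt_le_sqrt h4
  rw [Real.sqrt_mul (by positivity)] at h5
  have e2 : √((ℓ : ℝ) ^ (-((h : ℝ) - 1))) = (ℓ : ℝ) ^ (-(((2 * h : ℕ) : ℝ) - 2) / 4) := by
    rw [Real.sqrt_eq_rpow, ← Real.rpow_mul hl0.le]
    congr 1
    push_cast
    ring
  rw [e2] at h5
  linarith

lemma ratio (h ℓ : ℕ) (hh : 1 ≤ h) (hl : h ≤ ℓ) (μ : ℝ) (hμ : bound (2 * h) ℓ < μ) :
    ∃ ε : ℝ, 0 < ε ∧ ∀ᶠ n : ℕ in atTop,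
      1 + ε ≤ meanTop (2 * h) ℓ n (μ * (n : ℝ) ^ (-((2 * h : ℕ) : ℝ) / 4)) / meanTop (2 * h) ℓ n 0 := by
  obtain ⟨ε, hε, h1⟩ := Pool.Agent.Run7.h59.KK.threshold h ℓ hh hl μ (key h ℓ hh hl μ hμ)
  refine ⟨ε, hε, ?_⟩
  filter_upwards [h1] with n hn
  rw [meanTop_eq, meanTop_eq]
  have : -((2 * h : ℕ) : ℝ) / 4 = -((h : ℝ) / 2) := by push_cast; ring
  rw [this]
  exact hn

lemma one_lt_rho (h ℓ : ℕ) (hh : 1 ≤ h) (hl : h ≤ ℓ) (μ : ℝ) (hμ : bound (2 * h) ℓ < μ) :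
    1 < rho (2 * h) ℓ μ := by
  obtain ⟨ε, hε, h1⟩ := ratio h ℓ hh hl μ hμ
  have h2 : ((1 + ε : ℝ) : EReal) ≤ rho (2 * h) ℓ μ := by
    unfold rho
    apply le_liminf_of_le
    · isBoundedDefault
    · filter_upwards [h1] with n hn
      exact EReal.coe_le_coe_iff.2 hn
  refine lt_of_lt_of_le ?_ h2
  have : ((1 : ℝ) : EReal) < ((1 + ε : ℝ) : EReal) := EReal.coe_lt_coe_iff.2 (by linarith)
  simpa using this

lemma threshold_nonneg (r ℓ : ℕ) : 0 ≤ threshold r ℓ := by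
  unfold threshold
  apply le_sInf
  rintro x ⟨μ, hμ, _, rfl⟩
  exact_mod_cast hμ

lemma threshold_le (h ℓ : ℕ) (hh : 1 ≤ h) (hl : h ≤ ℓ) :
    threshold (2 * h) ℓ ≤ (bound (2 * h) ℓ : EReal) := by
  apply le_of_forall_gt_imp_ge_of_dense
  intro x hx
  rcases eq_or_ne x ⊤ with rfl | hx2
  · exact le_top
  · lift x to ℝ using ⟨hx2, (lt_of_le_of_lt bot_le hx).ne'⟩
    have hx' : bound (2 * h) ℓ < x := EReal.coe_lt_coe_iff.1 hx
    unfold threshold
    apply sInf_le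
    refine ⟨x, ?_, one_lt_rho h ℓ hh hl x hx', rfl⟩
    have : 0 ≤ bound (2 * h) ℓ := by unfold bound; positivity
    linarith

/-- Let `r ≥ 2` be even, `ℓ ≥ r/2`.
(1) `limsup_n n^(-r/4) E λ_max M(0) ≤ 2 √((2ℓ/r) binom(ℓ, r/2) / (r/2)!)`: no logarithmic factor.
(2) If `μ > 2 √((r/2 - 1)! ℓ / binom(ℓ, r/2))` then `ρ_{r,ℓ}(μ) > 1`; so the threshold is at most
this number; for `ℓ ≥ r` it is at most `2 √(2^(r/2) (r/2)! (r/2 - 1)!) ℓ^(-(r-2)/4)`.
(3) For every even `r ≥ 4` the threshold tends to `0` as `ℓ → ∞`; and for every `δ > 0` and all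
large `ℓ`, every `μ > δ` has an `ε > 0` such that
`E λ_max M(μ n^(-r/4)) ≥ (1 + ε) E λ_max M(0)` for all large `n`. -/
theorem result :
    (∀ r ℓ : ℕ, 2 ≤ r → Even r → r / 2 ≤ ℓ →
      (∀ c : ℝ, 2 * √(2 * (ℓ : ℝ) / r * ((ℓ.choose (r / 2) : ℝ) / ((r / 2).factorial : ℝ))) < c →
        ∀ᶠ n : ℕ in atTop, meanTop r ℓ n 0 ≤ c * (n : ℝ) ^ ((r : ℝ) / 4)) ∧
      (∀ μ : ℝ, 2 * √(((r / 2 - 1).factorial : ℝ) * ℓ / (ℓ.choose (r / 2) : ℝ)) < μ →
        1 < rho r ℓ μ) ∧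
      threshold r ℓ ≤
        ((2 * √(((r / 2 - 1).factorial : ℝ) * ℓ / (ℓ.choose (r / 2) : ℝ)) : ℝ) : EReal) ∧
      (r ≤ ℓ → threshold r ℓ ≤
        ((2 * √(2 ^ (r / 2) * ((r / 2).factorial : ℝ) * ((r / 2 - 1).factorial : ℝ)) *
          (ℓ : ℝ) ^ (-((r : ℝ) - 2) / 4) : ℝ) : EReal))) ∧
    (∀ r : ℕ, 4 ≤ r → Even r →
      Tendsto (fun ℓ : ℕ => threshold r ℓ) atTop (𝓝 0) ∧
      ∀ δ : ℝ, 0 < δ → ∀ᶠ ℓ : ℕ in atTop, ∀ μ : ℝ, δ < μ → ∃ ε : ℝ, 0 < ε ∧
        ∀ᶠ n : ℕ in atTop,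
          1 + ε ≤ meanTop r ℓ n (μ * (n : ℝ) ^ (-(r : ℝ) / 4)) / meanTop r ℓ n 0) := by
  constructor
  · intro r ℓ hr hev hl
    obtain ⟨h, rfl⟩ := hev.two_dvd
    rw [Nat.mul_div_cancel_left h (by norm_num)] at hl ⊢
    have hh : 1 ≤ h := by omega
    refine ⟨?_, ?_, ?_, ?_⟩
    · intro c hc
      have h1 := Pool.Agent.Run7.h59.KK.noise_le h ℓ hh hl c (by
        unfold Pool.Agent.Run7.h59.KK.lev
        have : 2 * (ℓ : ℝ) / ((2 * h : ℕ) : ℝ) = (ℓ : ℝ) / h := by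
          push_cast
          rw [mul_div_mul_left _ _ (by norm_num)]
        rw [this] at hc
        exact hc)
      filter_upwards [h1] with n hn
      rw [meanTop_eq]
      have : ((2 * h : ℕ) : ℝ) / 4 = (h : ℝ) / 2 := by push_cast; ring
      rw [this]
      exact hn
    · intro μ hμ
      apply one_lt_rho h ℓ hh hl μ
      unfold bound
      rw [Nat.mul_div_cancel_left h (by norm_num)]
      exact hμ
    · have := threshold_le h ℓ hh hl
      unfold bound at this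
      rwa [Nat.mul_div_cancel_left h (by norm_num)] at this
    · intro hrl
      exact (threshold_le h ℓ hh hl).trans (EReal.coe_le_coe_iff.2 (bound_le h ℓ hh hrl))
  · intro r hr hev
    obtain ⟨h, rfl⟩ := hev.two_dvd
    have hh : 1 ≤ h := by omega
    have hb := bound_tendsto (2 * h) hr
    constructor
    · have hb2 : Tendsto (fun ℓ : ℕ => (bound (2 * h) ℓ : EReal)) atTop (𝓝 0) := by
        have := (continuous_coe_real_ereal.tendsto 0).comp hb
        rw [EReal.coe_zero] at this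
        exact this
      refine tendsto_of_tendsto_of_tendsto_of_le_of_le' tendsto_const_nhds hb2
        (Eventually.of_forall fun ℓ => threshold_nonneg (2 * h) ℓ) ?_
      filter_upwards [eventually_ge_atTop h] with ℓ hℓ
      exact threshold_le h ℓ hh hℓ
    · intro δ hδ
      filter_upwards [hb.eventually_lt_const hδ, eventually_ge_atTop h] with ℓ h1 h2
      intro μ hμ
      exact ratio h ℓ hh h2 μ (h1.trans hμ)

end Pool.Agent.Results.MP_d47e08_pr.VanishingThreshold
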